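import Mathlib

set_option autoImplicit false

noncomputable section
open scoped Classical

namespace Pool.Agent.H144Z.Grom

/-- A finite graph embedded in the Euclidean plane (identified with the complex numbers) whose
edges are non-degenerate straight segments, each of weight one. -/
structure PlaneGraph where
  /-- the vertices -/
  V : Finset ℂ
  /-- `Adj a b` means that the segment `ab` is an edge -/
  Adj : ℂ → ℂ → Prop
  symm : ∀ a b, Adj a b → Adj b a
  /-- edges join two distinct vertices -/
  edge_ends : ∀ a b, Adj a b → a ∈ V ∧ b ∈ V ∧ a ≠ b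
  /-- two distinct edges meet at most in a common endpoint -/
  edges_meet : ∀ a b c d, Adj a b → Adj c d → s(a, b) ≠ s(c, d) →
    ∀ z ∈ segment ℝ a b, z ∈ segment ℝ c d → (z = a ∨ z = b) ∧ (z = c ∨ z = d)

namespace PlaneGraph

variable (G : PlaneGraph)

/-- the neighbours of `v` -/
def neighbors (v : ℂ) : Finset ℂ := G.V.filter (fun w => G.Adj v w)

/-- the sum of the unit vectors at `v` pointing along the edges incident to `v` -/
def Imb (v : ℂ) : ℂ := ∑ w ∈ G.neighbors v, (w - v) / (‖w - v‖ : ℂ)

/-- the balanced vertices -/
def balanced : Finset ℂ := G.V.filter (fun v => G.Imb v = 0)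

/-- the unbalanced vertices -/
def unbalanced : Finset ℂ := G.V.filter (fun v => G.Imb v ≠ 0)

/-- the total imbalance -/
def totalImbalance : ℝ := ∑ v ∈ G.unbalanced, ‖G.Imb v‖

/-- The convention for geodesic nets: every vertex has degree at least one and every balanced
vertex has degree at least three. -/
def IsGeodesicNet : Prop :=
  (∀ v ∈ G.V, 1 ≤ (G.neighbors v).card) ∧ ∀ v ∈ G.balanced, 3 ≤ (G.neighbors v).card

end PlaneGraph

end Pool.Agent.H144Z.Grom
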