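import Pool.Agent.H144Z.Grom.Defs
import Pool.Agent.Helper971.BK.U8
import Pool.Agent.Helper544.Planar

set_option autoImplicit false

noncomputable section
open scoped Classical

namespace Pool.Agent.H144Z.Grom

open Pool.Agent.GNet Pool.Agent.Helper544.Planar Finset

/-- the flat geometry of the plane -/
def flat : Geom ℂ where
  B := Set.univ
  G := fun _ => (innerSL ℝ (E := ℂ) : ℂ →L[ℝ] ℂ →L[ℝ] ℝ)
  G' := fun _ => 0
  A := fun _ _ => 0
  K := 1
  conv := convex_univ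
  one_le := le_rfl
  symm := fun _ _ u v => real_inner_comm v u
  lower := fun _ _ u => by
    change ‖u‖ ^ 2 ≤ 1 * inner ℝ u u
    rw [real_inner_self_eq_norm_sq, one_mul]
  upper := fun _ _ u v => by
    change |inner ℝ u v| ≤ 1 * ‖u‖ * ‖v‖
    rw [one_mul]
    exact abs_real_inner_le_norm u v
  deriv := fun x _ => hasFDerivAt_const _ x
  G'_le := fun _ _ w u v => by
    simp only [zero_apply, abs_zero]; positivity
  G'_lip := fun _ _ _ _ w u v => by
    simp only [zero_apply, sub_self, abs_zero]; positivity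
  A_le := fun _ _ _ _ => by simp
  A_lip := fun _ _ _ _ _ _ _ _ => by
    simp only [sub_self, norm_zero]; positivity

theorem norm_uv {a b : ℂ} (h : a ≠ b) : ‖uv a b‖ = 1 := by
  unfold uv
  have : ‖b - a‖ ≠ 0 := norm_ne_zero_iff.2 (sub_ne_zero.2 h.symm)
  rw [norm_div, Complex.norm_real, Real.norm_eq_abs, abs_norm, div_self this]

theorem uv_mul {a b : ℂ} (h : a ≠ b) : (‖b - a‖ : ℂ) * uv a b = b - a := by
  unfold uv
  have : (‖b - a‖ : ℂ) ≠ 0 := by
    exact_mod_cast norm_ne_zero_iff.2 (sub_ne_zero.2 h.symm)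
  field_simp

namespace PlaneGraph

variable (H : PlaneGraph)

/-- oriented edges -/
def E : Finset (ℂ × ℂ) := (H.V ×ˢ H.V).filter fun p => H.Adj p.1 p.2

theorem mem_E {p : ℂ × ℂ} : p ∈ H.E ↔ H.Adj p.1 p.2 := by
  unfold E
  rw [mem_filter, mem_product]
  exact ⟨fun h => h.2, fun h => ⟨⟨(H.edge_ends _ _ h).1, (H.edge_ends _ _ h).2.1⟩, h⟩⟩

theorem ne_of_E {p : ℂ × ℂ} (h : p ∈ H.E) : p.1 ≠ p.2 := (H.edge_ends _ _ (H.mem_E.1 h)).2.2

theorem swap_E {p : ℂ × ℂ} (h : p ∈ H.E) : p.swap ∈ H.E :=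
  H.mem_E.2 (H.symm _ _ (H.mem_E.1 h))

theorem sum_E {M : Type*} [AddCommMonoid M] (f : ℂ × ℂ → M) :
    ∑ p ∈ H.E, f p = ∑ a ∈ H.V, ∑ b ∈ H.neighbors a, f (a, b) := by
  unfold E neighbors
  rw [sum_filter, sum_product]
  refine sum_congr rfl fun a _ => ?_
  rw [sum_filter]

theorem sum_swap {M : Type*} [AddCommMonoid M] (f : ℂ × ℂ → M) :
    ∑ p ∈ H.E, f p = ∑ p ∈ H.E, f p.swap := by
  refine sum_bij' (fun p _ => p.swap) (fun p _ => p.swap) ?_ ?_ ?_ ?_ ?_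
  · exact fun p hp => H.swap_E hp
  · exact fun p hp => H.swap_E hp
  · simp
  · simp
  · simp

theorem Imb_eq (a : ℂ) : H.Imb a = ∑ b ∈ H.neighbors a, uv a b := rfl

theorem length_le : ∑ p ∈ H.E, ‖p.2 - p.1‖ ≤ 2 * ∑ v ∈ H.V, ‖v‖ * ‖H.Imb v‖ := by
  have h1 : ∀ p ∈ H.E, ‖p.2 - p.1‖ = inner ℝ p.2 (uv p.1 p.2) - inner ℝ p.1 (uv p.1 p.2) := by
    intro p hp
    have e1 : p.2 - p.1 = ‖p.2 - p.1‖ • uv p.1 p.2 := by
      rw [Complex.real_smul, uv_mul (H.ne_of_E hp)]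
    rw [← inner_sub_left]
    conv_rhs => rw [e1]
    rw [uv, ← uv, real_inner_smul_left, real_inner_self_eq_norm_sq, norm_uv (H.ne_of_E hp)]
    ring
  rw [sum_congr rfl h1, sum_sub_distrib, H.sum_swap (fun p => inner ℝ p.2 (uv p.1 p.2))]
  have h2 : ∀ p ∈ H.E, (inner ℝ p.swap.2 (uv p.swap.1 p.swap.2) : ℝ) =
      - inner ℝ p.1 (uv p.1 p.2) := by
    intro p _
    simp only [Prod.snd_swap, Prod.fst_swap]
    rw [uv_neg p.1 p.2, inner_neg_right]
  rw [sum_congr rfl h2, sum_neg_distrib, H.sum_E (fun p => inner ℝ p.1 (uv p.1 p.2))]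
  have h3 : ∀ a ∈ H.V, -(‖a‖ * ‖H.Imb a‖) ≤ ∑ b ∈ H.neighbors a, (inner ℝ a (uv a b) : ℝ) := by
    intro a _
    rw [← inner_sum, ← Imb_eq]
    have := abs_real_inner_le_norm a (H.Imb a)
    rw [abs_le] at this
    exact this.1
  have h4 := sum_le_sum h3
  rw [sum_neg_distrib] at h4
  simp only at h4 ⊢
  linarith

/-- point with arc length parameter `s` on the oriented edge `p` -/
def px (p : ℂ × ℂ) (s : ℝ) : ℂ := p.1 + s • uv p.1 p.2

theorem px_pt {p : ℂ × ℂ} (h : p.1 ≠ p.2) (s : ℝ) : px p s = pt p.1 p.2 (s / ‖p.2 - p.1‖) := by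
  unfold px pt uv
  rw [Complex.real_smul]
  push_cast
  ring

theorem px_swap {p : ℂ × ℂ} (h : p.1 ≠ p.2) (s : ℝ) : px p.swap s = px p (‖p.2 - p.1‖ - s) := by
  unfold px
  simp only [Prod.fst_swap, Prod.snd_swap]
  rw [uv_neg p.1 p.2, sub_smul, show ‖p.2 - p.1‖ • uv p.1 p.2 = p.2 - p.1 by
    rw [Complex.real_smul, uv_mul h], smul_neg]
  ring

theorem px_inj {p : ℂ × ℂ} (h : p.1 ≠ p.2) {s t : ℝ} (e : px p s = px p t) : s = t := by
  unfold px at e
  have e1 : (s - t) • uv p.1 p.2 = 0 := by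
    rw [sub_smul]; linear_combination e
  have e2 := congrArg norm e1
  rw [norm_smul, norm_uv h, mul_one, norm_zero, Real.norm_eq_abs, abs_eq_zero] at e2
  linarith

theorem idx_eq {k k' : ℕ} {l s t : ℝ} (hl : 0 < l) (hs : s ∈ Set.Ioo 0 l) (ht : t ∈ Set.Icc 0 l)
    (e : k * l + s = k' * l + t) : k = k' ∧ t = s := by
  have h1 : k = k' := by
    rcases lt_trichotomy k k' with h | h | h
    · have : (k : ℝ) + 1 ≤ k' := by exact_mod_cast h
      nlinarith [hs.2, ht.1]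
    · exact h
    · have : (k' : ℝ) + 1 ≤ k := by exact_mod_cast h
      nlinarith [hs.1, ht.2]
  subst h1
  exact ⟨rfl, by linarith⟩

theorem sum_darts {M : Type*} [AddCommMonoid M] (q : ℕ) (f : ℂ × ℂ → ℕ → M) :
    ∑ d : {p // p ∈ H.E} × Fin q, f d.1.1 d.2 = ∑ p ∈ H.E, ∑ k ∈ range q, f p k := by
  rw [Fintype.sum_prod_type, ← sum_coe_sort H.E (fun p => ∑ k ∈ range q, f p k)]
  refine sum_congr rfl fun p _ => ?_
  exact Fin.sum_univ_eq_sum_range (fun k => f p.1 k) q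

/-- the subdivided net -/
def geoNet (hbal : ∀ z ∈ H.V, ‖z‖ < 8 → H.Imb z = 0) (q : ℕ) (hq : 0 < q) : GeoNet flat 0 1 where
  D := {p // p ∈ H.E} × Fin q
  rev := fun d => (⟨d.1.1.swap, H.swap_E d.1.2⟩, d.2.rev)
  len := fun d => ‖d.1.1.2 - d.1.1.1‖ / q
  x := fun d s => px d.1.1 ((d.2 : ℕ) * (‖d.1.1.2 - d.1.1.1‖ / q) + s)
  u := fun d _ => uv d.1.1.1 d.1.1.2
  a := fun _ _ => 0
  rev_rev := fun d => by
    obtain ⟨⟨p, hp⟩, k⟩ := d
    simp
  len_pos := fun d => by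
    have := norm_pos_iff.2 (sub_ne_zero.2 (H.ne_of_E d.1.2).symm)
    positivity
  len_rev := fun d => by
    simp only [Prod.snd_swap, Prod.fst_swap]
    rw [norm_sub_rev]
  x_rev := fun d s => by
    simp only
    rw [px_swap (H.ne_of_E d.1.2)]
    congr 1
    simp only [Prod.snd_swap, Prod.fst_swap, Fin.val_rev]
    rw [norm_sub_rev d.1.1.1 d.1.1.2, Nat.cast_sub (by omega)]
    have : (q : ℝ) ≠ 0 := by positivity
    push_cast
    field_simp
    ring
  u_rev := fun d s => uv_neg _ _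
  hx := fun d s _ => by
    have := (((hasDerivAt_id s).const_add ((d.2 : ℕ) * (‖d.1.1.2 - d.1.1.1‖ / q))).smul_const
      (uv d.1.1.1 d.1.1.2)).const_add d.1.1.1
    rw [one_smul] at this
    exact this
  hu := fun d s _ => hasDerivAt_const _ _
  ac := fun d => continuousOn_const
  u_le := fun d s _ => (norm_uv (H.ne_of_E d.1.2)).le
  u_ge := fun d s _ => by
    change 1 ≤ 1 * ‖uv d.1.1.1 d.1.1.2‖
    rw [norm_uv (H.ne_of_E d.1.2), one_mul]
  a_le := fun d s _ => by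
    change ‖(0 : ℂ)‖ ≤ 1
    simp
  bal := fun z hz => by
    have hq' : (q : ℝ) ≠ 0 := by positivity
    rw [sum_filter]
    refine (H.sum_darts q (fun p k =>
      if px p (k * (‖p.2 - p.1‖ / q) + 0) = z then uv p.1 p.2 else 0)).trans ?_
    have e1 : ∀ p ∈ H.E, ∑ k ∈ range q,
        (if px p (k * (‖p.2 - p.1‖ / q) + 0) = z then uv p.1 p.2 else 0) =
        (if p.1 = z then uv p.1 p.2 else 0) + ∑ k ∈ Ico 1 q,
          (if px p (k * (‖p.2 - p.1‖ / q)) = z then uv p.1 p.2 else 0) := by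
      intro p _
      rw [range_eq_Ico, sum_eq_sum_Ico_succ_bot hq]
      simp [px]
    rw [sum_congr rfl e1, sum_add_distrib]
    have e2 : ∑ p ∈ H.E, (if p.1 = z then uv p.1 p.2 else 0) = 0 := by
      rw [H.sum_E (fun p => if p.1 = z then uv p.1 p.2 else 0)]
      refine sum_eq_zero fun a ha => ?_
      by_cases h : a = z
      · simp only [h, if_true]
        rw [← Imb_eq]
        exact hbal z (h ▸ ha) (by simpa using hz)
      · simp [h]
    have e3 : ∑ p ∈ H.E, ∑ k ∈ Ico 1 q,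
        (if px p (k * (‖p.2 - p.1‖ / q)) = z then uv p.1 p.2 else 0) =
        - ∑ p ∈ H.E, ∑ k ∈ Ico 1 q,
        (if px p (k * (‖p.2 - p.1‖ / q)) = z then uv p.1 p.2 else 0) := by
      conv_lhs => rw [H.sum_swap]
      rw [← sum_neg_distrib]
      refine sum_congr rfl fun p hp => ?_
      rw [← sum_neg_distrib]
      refine sum_bij' (fun k _ => q - k) (fun k _ => q - k) ?_ ?_ ?_ ?_ ?_
      · intro k hk; rw [mem_Ico] at hk ⊢; omega
      · intro k hk; rw [mem_Ico] at hk ⊢; omega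
      · intro k hk; rw [mem_Ico] at hk; omega
      · intro k hk; rw [mem_Ico] at hk; omega
      · intro k hk
        rw [mem_Ico] at hk
        rw [px_swap (H.ne_of_E hp)]
        simp only [Prod.snd_swap, Prod.fst_swap]
        have : ‖p.2 - p.1‖ - k * (‖p.1 - p.2‖ / q) = ((q - k : ℕ) : ℝ) * (‖p.2 - p.1‖ / q) := by
          rw [norm_sub_rev p.1 p.2, Nat.cast_sub hk.2.le]
          field_simp
        rw [this, uv_neg p.1 p.2]
        split_ifs <;> simp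
    rw [e2, zero_add]
    exact self_eq_neg.1 e3
  geo := fun _ _ _ => rfl
  unit := fun d s _ => by
    change inner ℝ (uv d.1.1.1 d.1.1.2) (uv d.1.1.1 d.1.1.2) = (1 : ℝ)
    rw [real_inner_self_eq_norm_sq, norm_uv (H.ne_of_E d.1.2), one_pow]
  mem := fun _ _ _ => Set.mem_univ _
  emb := by
    rintro ⟨⟨p, hp⟩, k⟩ ⟨⟨p', hp'⟩, k'⟩ s hs t ht h
    simp only at hs ht h
    have hq' : (0 : ℝ) < q := by positivity
    have hn := norm_pos_iff.2 (sub_ne_zero.2 (H.ne_of_E hp).symm)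
    have hn' := norm_pos_iff.2 (sub_ne_zero.2 (H.ne_of_E hp').symm)
    have hl : 0 < ‖p.2 - p.1‖ / q := by positivity
    have hl' : 0 < ‖p'.2 - p'.1‖ / q := by positivity
    have hk : ((k : ℕ) : ℝ) + 1 ≤ q := by exact_mod_cast k.2
    have hk' : ((k' : ℕ) : ℝ) + 1 ≤ q := by exact_mod_cast k'.2
    have hql : q * (‖p.2 - p.1‖ / q) = ‖p.2 - p.1‖ := by field_simp
    have hql' : q * (‖p'.2 - p'.1‖ / q) = ‖p'.2 - p'.1‖ := by field_simp
    have b1 : 0 < (k : ℕ) * (‖p.2 - p.1‖ / q) + s := by have := hs.1; positivity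
    have b2 : (k : ℕ) * (‖p.2 - p.1‖ / q) + s < ‖p.2 - p.1‖ := by nlinarith [hs.2]
    have b3 : 0 ≤ (k' : ℕ) * (‖p'.2 - p'.1‖ / q) + t := by have := ht.1; positivity
    have b4 : (k' : ℕ) * (‖p'.2 - p'.1‖ / q) + t ≤ ‖p'.2 - p'.1‖ := by nlinarith [ht.2]
    have hsame : s(p.1, p.2) = s(p'.1, p'.2) := by
      by_contra hne
      have m1 : px p ((k : ℕ) * (‖p.2 - p.1‖ / q) + s) ∈ segment ℝ p.1 p.2 := by
        rw [px_pt (H.ne_of_E hp)]
        exact mem_seg.2 ⟨_, by positivity, (div_le_one hn).2 b2.le, rfl⟩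
      have m2 : px p ((k : ℕ) * (‖p.2 - p.1‖ / q) + s) ∈ segment ℝ p'.1 p'.2 := by
        rw [h, px_pt (H.ne_of_E hp')]
        exact mem_seg.2 ⟨_, by positivity, (div_le_one hn').2 b4, rfl⟩
      rcases (H.edges_meet _ _ _ _ (H.mem_E.1 hp) (H.mem_E.1 hp') hne _ m1 m2).1 with e1 | e1
      · have : px p 0 = p.1 := by simp [px]
        have := px_inj (H.ne_of_E hp) (e1.trans this.symm)
        linarith
      · have : px p ‖p.2 - p.1‖ = p.2 := by
          rw [px, Complex.real_smul, uv_mul (H.ne_of_E hp)]; ring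
        have := px_inj (H.ne_of_E hp) (e1.trans this.symm)
        linarith
    rcases Sym2.eq_iff.1 hsame with ⟨e1, e2⟩ | ⟨e1, e2⟩
    · have e3 : p = p' := Prod.ext e1 e2
      subst e3
      obtain ⟨a1, a2⟩ := idx_eq hl hs ht (px_inj (H.ne_of_E hp) h)
      exact Or.inl ⟨by rw [Fin.ext a1], a2⟩
    · have e3 : p' = p.swap := Prod.ext e2.symm e1.symm
      subst e3
      rw [px_swap (H.ne_of_E hp)] at h
      simp only [Prod.snd_swap, Prod.fst_swap] at h ht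
      rw [norm_sub_rev p.1 p.2] at h ht
      have a0 := px_inj (H.ne_of_E hp) h
      have a3 : (k : ℕ) * (‖p.2 - p.1‖ / q) + s =
          (k'.rev : ℕ) * (‖p.2 - p.1‖ / q) + (‖p.2 - p.1‖ / q - t) := by
        rw [a0, Fin.val_rev, Nat.cast_sub (by omega)]
        push_cast
        linarith
      obtain ⟨a1, a2⟩ := idx_eq hl hs ⟨by linarith [ht.2], by linarith [ht.1]⟩ a3
      refine Or.inr ⟨?_, by linarith⟩
      rw [Fin.ext a1, Fin.rev_rev]

end PlaneGraph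

theorem local_bound (Λ : ℝ) : ∃ B : ℕ, ∀ H : PlaneGraph, (∀ z ∈ H.V, ‖z‖ < 8 → H.Imb z = 0) →
    ∑ v ∈ H.V, ‖v‖ * ‖H.Imb v‖ ≤ Λ →
    (H.V.filter fun v => ‖v‖ < 1 / 2 ∧ 3 ≤ (H.neighbors v).card).card ≤ B := by
  obtain ⟨r₀, hr₀, B, hB⟩ := GeoNet.main flat 0 one_pos (2 * Λ)
  refine ⟨B, fun H hbal hΛ => ?_⟩
  obtain ⟨q, hq⟩ := exists_nat_gt ((∑ p ∈ H.E, ‖p.2 - p.1‖) / r₀)
  have hq0 : (0 : ℝ) < q := lt_of_le_of_lt (by positivity) hq
  have hq1 : 0 < q := by exact_mod_cast hq0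
  have h1 : ∀ d, (H.geoNet hbal q hq1).len d ≤ r₀ := by
    intro d
    change ‖d.1.1.2 - d.1.1.1‖ / q ≤ r₀
    have := single_le_sum (f := fun p : ℂ × ℂ => ‖p.2 - p.1‖) (fun p _ => norm_nonneg _) d.1.2
    rw [div_lt_iff₀ hr₀] at hq
    rw [div_le_iff₀ hq0]
    linarith
  have h2 : (H.geoNet hbal q hq1).toLNet.length ≤ 2 * Λ := by
    have e1 : (H.geoNet hbal q hq1).toLNet.length = ∑ p ∈ H.E, ‖p.2 - p.1‖ := by
      refine (H.sum_darts q (fun p _ => ‖p.2 - p.1‖ / q)).trans ?_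
      refine sum_congr rfl fun p _ => ?_
      rw [sum_const, card_range, nsmul_eq_mul]
      field_simp
    rw [e1]
    linarith [H.length_le]
  refine le_trans (card_le_card ?_) (hB _ h1 h2)
  intro v hv
  rw [mem_filter] at hv ⊢
  obtain ⟨hv1, hv2, hv3⟩ := hv
  have hdeg : 3 ≤ (H.geoNet hbal q hq1).toLNet.deg v := by
    refine hv3.trans ?_
    unfold LNet.deg
    have hE : ∀ w ∈ H.neighbors v, (v, w) ∈ H.E := fun w hw =>
      H.mem_E.2 (mem_filter.1 hw).2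
    rw [← card_attach]
    refine card_le_card_of_injOn
      (fun w => ((⟨(v, w.1), hE w.1 w.2⟩, ⟨0, hq1⟩) : {p // p ∈ H.E} × Fin q)) ?_ ?_
    · intro w _
      simp only [coe_filter, mem_univ, true_and, Set.mem_ofPred_eq]
      change PlaneGraph.px (v, w.1) (((0 : ℕ) : ℝ) * _ + 0) = v
      simp [PlaneGraph.px]
    · intro w _ w' _ e1
      have := congrArg (fun d : {p // p ∈ H.E} × Fin q => d.1.1.2) e1
      exact Subtype.ext this
  refine ⟨?_, by simpa using hv2, hdeg⟩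
  obtain ⟨d, hd⟩ := card_pos.1 (lt_of_lt_of_le (by norm_num) hdeg)
  exact mem_image.2 ⟨d, mem_univ _, (mem_filter.1 hd).2⟩

end Pool.Agent.H144Z.Grom
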