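import Pool.Agent.H144Z.Net.Draw

set_option autoImplicit false

noncomputable section
open scoped Classical

namespace Pool.Agent.H144Z.Grom

open Pool.Agent.H144Z.Net Finset

/-- unit vector with prescribed first coordinate -/
def uvec (c : ℝ) (b : Bool) : ℂ := ⟨c, sg b * Real.sqrt (1 - c ^ 2)⟩

theorem sg_sq (b : Bool) : sg b ^ 2 = 1 := by cases b <;> simp [sg]

theorem uvec_normSq {c : ℝ} (h0 : 0 < c) (h1 : c < 1) (b : Bool) :
    (uvec c b).re ^ 2 + (uvec c b).im ^ 2 = 1 := by
  have : 0 ≤ 1 - c ^ 2 := by nlinarith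
  simp only [uvec, mul_pow, sg_sq, Real.sq_sqrt this]
  ring

theorem norm_uvec {c : ℝ} (h0 : 0 < c) (h1 : c < 1) (b : Bool) : ‖uvec c b‖ = 1 := by
  rw [Complex.norm_eq_sqrt_sq_add_sq, uvec_normSq h0 h1, Real.sqrt_one]

/-- if a unit vector is parallel to `f`, the first coordinates agree up to sign -/
theorem par_re {e f : ℂ} (he : e.re ^ 2 + e.im ^ 2 = 1) (h : cross e f = 0) :
    e.re ^ 2 * (f.re ^ 2 + f.im ^ 2) = f.re ^ 2 := by
  unfold cross at h
  linear_combination (e.re * f.im + e.im * f.re) * h + f.re ^ 2 * he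

theorem cross_mul (u e f : ℂ) : cross (u * e) (u * f) = (u.re ^ 2 + u.im ^ 2) * cross e f := by
  simp only [cross, Complex.mul_re, Complex.mul_im]
  ring

theorem rays_real (x : ℝ) (hx : 0 < x) (F : Finset ℂ) (hF : ∀ f ∈ F, f ≠ 0) :
    ∃ T : Finset ℂ, (∀ e ∈ T, ‖e‖ = 1) ∧ (∀ e ∈ T, ∀ f ∈ F, cross e f ≠ 0) ∧
      (∀ e ∈ T, ∀ e' ∈ T, e ≠ e' → cross e e' ≠ 0) ∧ ∑ e ∈ T, e = x ∧
      (T.card : ℝ) ≤ 4 * x + 4 := by
  set p : ℕ := ⌊x⌋₊ + 1 with hp
  have hp1 : x < p := by rw [hp]; push_cast; exact Nat.lt_floor_add_one x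
  have hp2 : (p : ℝ) ≤ x + 1 := by rw [hp]; push_cast; linarith [Nat.floor_le hx.le]
  have hp0 : (0 : ℝ) < p := by linarith
  set c0 : ℝ := x / (4 * p) with hc0
  have hc1 : 0 < c0 := by positivity
  have hc2 : c0 < 1 / 4 := by
    rw [hc0, div_lt_iff₀ (by positivity)]; linarith
  let lam : Fin p × Bool → ℝ := fun j => sg j.2 * ((j.1 : ℕ) + 1)
  have hlam0 : ∀ j, lam j ≠ 0 := by
    intro j
    have : (0 : ℝ) < (j.1 : ℕ) + 1 := by positivity
    rcases sg_cases j.2 with h | h <;> simp only [lam, h] <;> linarith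
  have hlam1 : ∀ j, |lam j| ≤ p := by
    intro j
    have h1 : ((j.1 : ℕ) : ℝ) + 1 ≤ p := by exact_mod_cast j.1.2
    have h2 : (0 : ℝ) < (j.1 : ℕ) + 1 := by positivity
    rw [abs_le]
    rcases sg_cases j.2 with h | h <;> simp only [lam, h] <;> constructor <;> linarith
  have hlami : Function.Injective lam := by
    rintro ⟨i, b⟩ ⟨j, b'⟩ h
    have h1 : (0 : ℝ) < (i : ℕ) + 1 := by positivity
    have h2 : (0 : ℝ) < (j : ℕ) + 1 := by positivity
    cases b <;> cases b' <;> simp only [lam, sg, if_true, Bool.false_eq_true, if_false] at h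
    · have : ((i : ℕ) : ℝ) = (j : ℕ) := by linarith
      rw [Fin.ext (by exact_mod_cast this : (i : ℕ) = j)]
    · linarith
    · linarith
    · have : ((i : ℕ) : ℝ) = (j : ℕ) := by linarith
      rw [Fin.ext (by exact_mod_cast this : (i : ℕ) = j)]
  let bad : Finset ℝ := (univ ×ˢ F).image
    (fun z : (Fin p × Bool) × ℂ => (|z.2.re| / ‖z.2‖ - c0) / lam z.1)
  obtain ⟨t, ht, htb⟩ := (Set.Ioo_infinite (show (0 : ℝ) < c0 / p by positivity)).exists_notMem_finset bad
  let c : Fin p × Bool → ℝ := fun j => c0 + t * lam j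
  have hc : ∀ j, 0 < c j ∧ c j < 1 := by
    intro j
    have h1 : |t * lam j| < c0 := by
      rw [abs_mul, abs_of_pos ht.1]
      have h2 := ht.2
      rw [lt_div_iff₀ hp0] at h2
      nlinarith [hlam1 j, ht.1]
    rw [abs_lt] at h1
    simp only [c]
    constructor <;> linarith [h1.1, h1.2]
  have hci : Function.Injective c := by
    intro j j' h
    apply hlami
    simp only [c] at h
    exact mul_left_cancel₀ ht.1.ne' (by linarith)
  let g : (Fin p × Bool) × Bool → ℂ := fun j => uvec (c j.1) j.2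
  have hsq : ∀ j, 0 < Real.sqrt (1 - c j ^ 2) := by
    intro j
    apply Real.sqrt_pos.2
    nlinarith [(hc j).1, (hc j).2]
  have hcross : ∀ j j', j ≠ j' → cross (g j) (g j') ≠ 0 := by
    rintro ⟨j, b⟩ ⟨j', b'⟩ hne h
    have h1 := par_re (uvec_normSq (hc j).1 (hc j).2 b) h
    simp only [g] at h1
    rw [uvec_normSq (hc j').1 (hc j').2 b', mul_one] at h1
    have h2 : c j = c j' := by
      simp only [uvec] at h1
      exact (pow_left_inj₀ (hc j).1.le (hc j').1.le two_ne_zero).1 h1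
    have h3 := hci h2
    subst h3
    have h4 : b ≠ b' := fun e => hne (by rw [e])
    have h5 := mul_pos (hc j).1 (hsq j)
    simp only [g, cross, uvec] at h
    cases b <;> cases b' <;> simp only [sg, if_true, Bool.false_eq_true, if_false] at h
    · exact h4 rfl
    · linarith
    · linarith
    · exact h4 rfl
  have hgi : Function.Injective g := by
    intro j j' h
    by_contra hne
    apply hcross j j' hne
    rw [h]
    simp only [cross]
    ring
  refine ⟨univ.image g, ?_, ?_, ?_, ?_, ?_⟩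
  · intro e he
    obtain ⟨j, -, rfl⟩ := mem_image.1 he
    exact norm_uvec (hc j.1).1 (hc j.1).2 _
  · intro e he f hf h
    obtain ⟨j, -, rfl⟩ := mem_image.1 he
    have h1 := par_re (uvec_normSq (hc j.1).1 (hc j.1).2 j.2) h
    have hf0 : 0 < ‖f‖ := norm_pos_iff.2 (hF f hf)
    have h2 : f.re ^ 2 + f.im ^ 2 = ‖f‖ ^ 2 := by
      rw [Complex.norm_eq_sqrt_sq_add_sq, Real.sq_sqrt (by positivity)]
    rw [h2] at h1
    have h3 : c j.1 * ‖f‖ = |f.re| := by
      apply (pow_left_inj₀ (mul_pos (hc j.1).1 hf0).le (abs_nonneg _) two_ne_zero).1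
      rw [sq_abs, mul_pow]
      exact h1
    apply htb
    refine mem_image.2 ⟨(j.1, f), mem_product.2 ⟨mem_univ _, hf⟩, ?_⟩
    simp only
    rw [← h3, mul_div_assoc, div_self hf0.ne', mul_one, div_eq_iff (hlam0 _)]
    simp only [c]
    ring
  · intro e he e' he' hne
    obtain ⟨j, -, rfl⟩ := mem_image.1 he
    obtain ⟨j', -, rfl⟩ := mem_image.1 he'
    exact hcross j j' (fun h => hne (by rw [h]))
  · rw [sum_image (fun j _ j' _ h => hgi h)]
    have e1 : ∀ i : Fin p, ∑ b : Bool, ∑ b' : Bool, g ((i, b), b') = ((4 * c0 : ℝ) : ℂ) := by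
      intro i
      apply Complex.ext
      · simp [g, uvec, c, lam, sg]
        ring
      · simp [g, uvec, sg]
    rw [Fintype.sum_prod_type, Fintype.sum_prod_type, sum_congr rfl (fun i _ => e1 i), sum_const,
      card_univ, Fintype.card_fin, nsmul_eq_mul, hc0]
    have : (p : ℂ) ≠ 0 := by exact_mod_cast hp0.ne'
    push_cast
    field_simp
  · rw [card_image_of_injective _ hgi, card_univ]
    simp only [Fintype.card_prod, Fintype.card_fin, Fintype.card_bool]
    push_cast
    linarith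

theorem rays_one (w : ℂ) (hw : w ≠ 0) (F : Finset ℂ) (hF : ∀ f ∈ F, f ≠ 0) :
    ∃ T : Finset ℂ, (∀ e ∈ T, ‖e‖ = 1) ∧ (∀ e ∈ T, ∀ f ∈ F, cross e f ≠ 0) ∧
      (∀ e ∈ T, ∀ e' ∈ T, e ≠ e' → cross e e' ≠ 0) ∧ ∑ e ∈ T, e = w ∧
      (T.card : ℝ) ≤ 4 * ‖w‖ + 4 := by
  have hn : 0 < ‖w‖ := norm_pos_iff.2 hw
  have hn' : (‖w‖ : ℂ) ≠ 0 := by exact_mod_cast hn.ne'
  set u : ℂ := w / (‖w‖ : ℂ) with hu
  have hu1 : ‖u‖ = 1 := by
    rw [hu, norm_div, Complex.norm_real, Real.norm_eq_abs, abs_norm, div_self hn.ne']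
  have hu0 : u ≠ 0 := by
    intro h; rw [h, norm_zero] at hu1; exact zero_ne_one hu1
  have hu2 : u.re ^ 2 + u.im ^ 2 = 1 := by
    have := hu1
    rw [Complex.norm_eq_sqrt_sq_add_sq, Real.sqrt_eq_one] at this
    exact this
  obtain ⟨T, h1, h2, h3, h4, h5⟩ := rays_real ‖w‖ hn (F.image fun f => f / u) (by
    intro f hf
    obtain ⟨f', hf', rfl⟩ := mem_image.1 hf
    exact div_ne_zero (hF f' hf') hu0)
  have hi : Function.Injective (fun e : ℂ => u * e) := mul_right_injective₀ hu0
  refine ⟨T.image fun e => u * e, ?_, ?_, ?_, ?_, ?_⟩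
  · intro e he
    obtain ⟨e', he', rfl⟩ := mem_image.1 he
    rw [norm_mul, hu1, h1 e' he', one_mul]
  · intro e he f hf
    obtain ⟨e', he', rfl⟩ := mem_image.1 he
    have := h2 e' he' (f / u) (mem_image.2 ⟨f, hf, rfl⟩)
    have e1 : f = u * (f / u) := by field_simp
    rw [e1, cross_mul, hu2, one_mul]
    exact this
  · intro e he e' he' hne
    obtain ⟨a, ha, rfl⟩ := mem_image.1 he
    obtain ⟨b, hb, rfl⟩ := mem_image.1 he'
    rw [cross_mul, hu2, one_mul]
    exact h3 a ha b hb (fun h => hne (by rw [h]))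
  · rw [sum_image (fun a _ b _ h => hi h), ← mul_sum, h4, hu]
    field_simp
  · rw [card_image_of_injective _ hi]
    exact h5

theorem cross_anti (a b : ℂ) : cross a b = - cross b a := by
  simp only [cross]; ring

theorem rays (w : ℂ → ℂ) (F : Finset ℂ) (hF : ∀ f ∈ F, f ≠ 0) (U : Finset ℂ)
    (hw : ∀ v ∈ U, w v ≠ 0) :
    ∃ R : Finset (ℂ × ℂ), (∀ r ∈ R, r.1 ∈ U ∧ ‖r.2‖ = 1 ∧ ∀ f ∈ F, cross r.2 f ≠ 0) ∧
      (∀ r ∈ R, ∀ r' ∈ R, r ≠ r' → cross r.2 r'.2 ≠ 0) ∧
      (∀ v ∈ U, ∑ r ∈ R with r.1 = v, r.2 = w v) ∧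
      (R.card : ℝ) ≤ ∑ v ∈ U, (4 * ‖w v‖ + 4) := by
  induction U using Finset.induction_on with
  | empty => exact ⟨∅, by simp, by simp, by simp, by simp⟩
  | insert v U hv ih =>
    obtain ⟨R, h1, h2, h3, h4⟩ := ih (fun a ha => hw a (mem_insert_of_mem ha))
    obtain ⟨T, g1, g2, g3, g4, g5⟩ := rays_one (w v) (hw v (mem_insert_self _ _))
      (F ∪ R.image Prod.snd) (by
        intro f hf
        rcases mem_union.1 hf with hf | hf
        · exact hF f hf
        · obtain ⟨r, hr, rfl⟩ := mem_image.1 hf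
          intro h
          have := (h1 r hr).2.1
          rw [h, norm_zero] at this
          exact zero_ne_one this)
    have hi : Function.Injective (fun e : ℂ => (v, e)) := fun a b h => (Prod.ext_iff.1 h).2
    refine ⟨R ∪ T.image fun e => (v, e), ?_, ?_, ?_, ?_⟩
    · intro r hr
      rcases mem_union.1 hr with hr | hr
      · exact ⟨mem_insert_of_mem (h1 r hr).1, (h1 r hr).2⟩
      · obtain ⟨e, he, rfl⟩ := mem_image.1 hr
        exact ⟨mem_insert_self _ _, g1 e he, fun f hf => g2 e he f (mem_union_left _ hf)⟩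
    · intro r hr r' hr' hne
      rcases mem_union.1 hr with hr | hr <;> rcases mem_union.1 hr' with hr' | hr'
      · exact h2 r hr r' hr' hne
      · obtain ⟨e, he, rfl⟩ := mem_image.1 hr'
        rw [cross_anti, neg_ne_zero]
        exact g2 e he _ (mem_union_right _ (mem_image_of_mem _ hr))
      · obtain ⟨e, he, rfl⟩ := mem_image.1 hr
        exact g2 e he _ (mem_union_right _ (mem_image_of_mem _ hr'))
      · obtain ⟨e, he, rfl⟩ := mem_image.1 hr
        obtain ⟨e', he', rfl⟩ := mem_image.1 hr'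
        exact g3 e he e' he' (fun h => hne (by rw [h]))
    · intro a ha
      rcases mem_insert.1 ha with rfl | ha
      · have : (R ∪ T.image fun e => (a, e)).filter (fun r => r.1 = a) = T.image fun e => (a, e) := by
          ext r
          simp only [mem_filter, mem_union, mem_image]
          constructor
          · rintro ⟨hr | hr, e1⟩
            · exact absurd (e1 ▸ (h1 r hr).1) hv
            · exact hr
          · rintro ⟨e, he, rfl⟩
            exact ⟨Or.inr ⟨e, he, rfl⟩, rfl⟩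
        rw [this, sum_image (fun x _ y _ h => hi h)]
        exact g4
      · have : (R ∪ T.image fun e => (v, e)).filter (fun r => r.1 = a) =
            R.filter (fun r => r.1 = a) := by
          ext r
          simp only [mem_filter, mem_union, mem_image]
          constructor
          · rintro ⟨hr | ⟨e, he, rfl⟩, e1⟩
            · exact ⟨hr, e1⟩
            · exact absurd (show v = a from e1) (fun h => hv (h ▸ ha))
          · rintro ⟨hr, e1⟩
            exact ⟨Or.inl hr, e1⟩
        rw [this]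
        exact h3 a ha
    · rw [sum_insert hv]
      have a1 : (((R ∪ T.image fun e => (v, e)).card : ℕ) : ℝ) ≤ R.card + T.card := by
        have := (card_union_le R (T.image fun e => (v, e))).trans
          (Nat.add_le_add_left card_image_le _)
        exact_mod_cast this
      linarith

end Pool.Agent.H144Z.Grom
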