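import Pool.Agent.H144Z.Grom.Local
import Pool.Agent.H144Z.Grom.Rays

set_option autoImplicit false

noncomputable section
open scoped Classical

namespace Pool.Agent.H144Z.Grom

open Pool.Agent.H144Z.Net Pool.Agent.Helper544.Planar Finset Filter Topology

theorem uv_scale {c : ℝ} (hc : 0 < c) (a b : ℂ) : uv (c * a) (c * b) = uv a b := by
  unfold uv
  rw [← mul_sub, norm_mul, Complex.norm_real, Real.norm_eq_abs, abs_of_pos hc]
  have : (c : ℂ) ≠ 0 := by exact_mod_cast hc.ne'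
  push_cast
  rw [mul_div_mul_left _ _ this]

theorem uv_ray (z e : ℂ) (he : ‖e‖ = 1) : uv z (z + 9 * e) = e := by
  unfold uv
  rw [add_sub_cancel_left, norm_mul, he]
  simp

theorem seg_scale {c : ℝ} (hc : 0 < c) {a b z : ℂ} (h : z ∈ segment ℝ (c * a) (c * b)) :
    z / c ∈ segment ℝ a b := by
  obtain ⟨s, h0, h1, rfl⟩ := mem_seg.1 h
  refine mem_seg.2 ⟨s, h0, h1, ?_⟩
  have : (c : ℂ) ≠ 0 := by exact_mod_cast hc.ne'
  unfold pt
  field_simp

theorem par {a b c d p q : ℂ} (hpq : p ≠ q) (h1 : p ∈ segment ℝ a b) (h2 : p ∈ segment ℝ c d)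
    (h3 : q ∈ segment ℝ a b) (h4 : q ∈ segment ℝ c d) : cross (d - c) (b - a) = 0 := by
  obtain ⟨e1, e2⟩ := col hpq h1 h2 h3 h4
  simp only [cross, Complex.sub_re, Complex.sub_im] at *
  linarith

/-- a graph, scaled into a small disc, with rays which balance its vertices -/
structure Ext (G : PlaneGraph) where
  R : Finset (ℂ × ℂ)
  c : ℝ
  hc : 0 < c
  small : ∀ v ∈ G.V, ‖(c : ℂ) * v‖ < 1 / 2
  mem : ∀ r ∈ R, r.1 ∈ G.V
  unit : ∀ r ∈ R, ‖r.2‖ = 1
  edge : ∀ r ∈ R, ∀ a b, G.Adj a b → cross r.2 (b - a) ≠ 0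
  pair : ∀ r ∈ R, ∀ r' ∈ R, r ≠ r' → cross r.2 r'.2 ≠ 0
  ends : ∀ r ∈ R, ∀ r' ∈ R, r ≠ r' → c * r.1 + 9 * r.2 ≠ c * r'.1 + 9 * r'.2
  bal : ∀ v ∈ G.V, G.Imb v + ∑ r ∈ R with r.1 = v, r.2 = 0

theorem exists_ext (G : PlaneGraph) : ∃ X : Ext G,
    (X.R.card : ℝ) ≤ 4 * G.totalImbalance + 4 * G.unbalanced.card := by
  obtain ⟨R, h1, h2, h3, h4⟩ := rays (fun v => - G.Imb v) (G.E.image fun p => p.2 - p.1) (by
    intro f hf
    obtain ⟨p, hp, rfl⟩ := mem_image.1 hf
    exact sub_ne_zero.2 (G.ne_of_E hp).symm) G.unbalanced (by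
    intro v hv
    exact neg_ne_zero.2 (mem_filter.1 hv).2)
  have e1 : ∀ᶠ c : ℝ in 𝓝 0, ∀ v ∈ G.V, ‖(c : ℂ) * v‖ < 1 / 2 := by
    rw [eventually_all_finset]
    intro v _
    have : Continuous fun c : ℝ => ‖(c : ℂ) * v‖ := by fun_prop
    exact this.continuousAt.eventually_lt continuousAt_const (by simp)
  have e2 : ∀ᶠ c : ℝ in 𝓝 0, ∀ r ∈ R, ∀ r' ∈ R, r ≠ r' →
      (c : ℂ) * r.1 + 9 * r.2 ≠ c * r'.1 + 9 * r'.2 := by
    rw [eventually_all_finset]
    intro r hr
    rw [eventually_all_finset]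
    intro r' hr'
    by_cases hne : r = r'
    · exact Eventually.of_forall fun c h => absurd hne h
    · have hc : Continuous fun c : ℝ => (c : ℂ) * r.1 + 9 * r.2 - (c * r'.1 + 9 * r'.2) := by
        fun_prop
      have h0 : ((0 : ℝ) : ℂ) * r.1 + 9 * r.2 - ((0 : ℝ) * r'.1 + 9 * r'.2) ≠ 0 := by
        intro h
        apply h2 r hr r' hr' hne
        have : r.2 = r'.2 := by
          push_cast at h
          linear_combination h / 9
        rw [this]
        simp only [cross]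
        ring
      filter_upwards [hc.continuousAt.eventually_ne h0] with c h _
      exact sub_ne_zero.1 h
  obtain ⟨c, ⟨c1, c2⟩, c3⟩ := (((e1.and e2).filter_mono
    (nhdsWithin_le_nhds (s := Set.Ioi (0 : ℝ)))).and self_mem_nhdsWithin).exists
  refine ⟨⟨R, c, c3, c1, fun r hr => (mem_filter.1 (h1 r hr).1).1, fun r hr => (h1 r hr).2.1,
    fun r hr a b hab => (h1 r hr).2.2 _ (mem_image.2 ⟨(a, b), G.mem_E.2 hab, rfl⟩), h2, c2, ?_⟩, ?_⟩
  · intro v hv
    by_cases hb : G.Imb v = 0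
    · rw [hb, zero_add]
      refine sum_eq_zero fun r hr => ?_
      rw [mem_filter] at hr
      have := (mem_filter.1 (h1 r hr.1).1).2
      rw [hr.2] at this
      exact absurd hb this
    · rw [h3 v (mem_filter.2 ⟨hv, hb⟩)]
      ring
  · refine h4.trans (le_of_eq ?_)
    simp only [norm_neg, sum_add_distrib, ← mul_sum, sum_const, nsmul_eq_mul,
      PlaneGraph.totalImbalance]
    ring

namespace Ext

variable {G : PlaneGraph} (X : Ext G)

/-- vertex labels -/
abbrev I := {v // v ∈ G.V} ⊕ {r // r ∈ X.R}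

/-- positions -/
def pos : X.I → ℂ
  | Sum.inl v => X.c * v.1
  | Sum.inr r => X.c * r.1.1 + 9 * r.1.2

/-- weights -/
def W : X.I → X.I → ℕ
  | Sum.inl a, Sum.inl b => if G.Adj a.1 b.1 then 1 else 0
  | Sum.inl a, Sum.inr r => if r.1.1 = a.1 then 1 else 0
  | Sum.inr r, Sum.inl a => if r.1.1 = a.1 then 1 else 0
  | Sum.inr _, Sum.inr _ => 0

theorem far (r : {r // r ∈ X.R}) : 8 < ‖X.pos (Sum.inr r)‖ ∧ ‖X.pos (Sum.inr r)‖ ≤ 10 := by
  have h1 := X.small _ (X.mem r.1 r.2)
  have h2 : ‖(9 : ℂ) * r.1.2‖ = 9 := by rw [norm_mul, X.unit r.1 r.2]; simp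
  have h3 := norm_add_le ((X.c : ℂ) * r.1.1) (9 * r.1.2)
  have h4 := norm_sub_le ((X.c : ℂ) * r.1.1 + 9 * r.1.2) ((X.c : ℂ) * r.1.1)
  rw [add_sub_cancel_left] at h4
  simp only [pos]
  constructor <;> linarith

theorem c_ne : (X.c : ℂ) ≠ 0 := by exact_mod_cast X.hc.ne'

theorem pos_inj : Function.Injective X.pos := by
  rintro (a | r) (b | r') h
  · simp only [pos] at h
    rw [Subtype.ext (mul_left_cancel₀ X.c_ne h)]
  · have h1 := X.small _ a.2
    have h2 := (X.far r').1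
    rw [← h] at h2
    simp only [pos] at h2
    linarith
  · have h1 := X.small _ b.2
    have h2 := (X.far r).1
    rw [h] at h2
    simp only [pos] at h2
    linarith
  · by_contra hne
    exact X.ends _ r.2 _ r'.2 (fun e => hne (by rw [Subtype.ext e])) h

/-- canonical form of the edges -/
def Canon (x y : X.I) : Prop :=
  (∃ a b, x = Sum.inl a ∧ y = Sum.inl b ∧ G.Adj a.1 b.1) ∨
    ∃ a r, x = Sum.inl a ∧ y = Sum.inr r ∧ r.1.1 = a.1

theorem canon {x y : X.I} (h : X.W x y ≠ 0) : X.Canon x y ∨ X.Canon y x := by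
  rcases x with a | r <;> rcases y with b | r' <;> simp only [W, ne_eq, ite_eq_right_iff,
    one_ne_zero, imp_false, not_not, not_true] at h
  · exact Or.inl (Or.inl ⟨a, b, rfl, rfl, h⟩)
  · exact Or.inl (Or.inr ⟨a, r', rfl, rfl, h⟩)
  · exact Or.inr (Or.inr ⟨b, r, rfl, rfl, h⟩)

theorem ovl_canon {x y z t : X.I} (h : X.Canon x y) (h' : X.Canon z t)
    (hne : ¬ ((x = z ∧ y = t) ∨ (x = t ∧ y = z))) {p q : ℂ}
    (h1 : p ∈ segment ℝ (X.pos x) (X.pos y)) (h2 : p ∈ segment ℝ (X.pos z) (X.pos t))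
    (h3 : q ∈ segment ℝ (X.pos x) (X.pos y)) (h4 : q ∈ segment ℝ (X.pos z) (X.pos t)) :
    p = q := by
  by_contra hpq
  have hc := X.hc
  rcases h with ⟨a, b, rfl, rfl, hab⟩ | ⟨a, r, rfl, rfl, har⟩ <;>
    rcases h' with ⟨a', b', rfl, rfl, hab'⟩ | ⟨a', r', rfl, rfl, har'⟩ <;>
    simp only [pos] at h1 h2 h3 h4
  · have hs : s(a.1, b.1) ≠ s(a'.1, b'.1) := by
      intro e
      rcases Sym2.eq_iff.1 e with ⟨e1, e2⟩ | ⟨e1, e2⟩
      · exact hne (Or.inl ⟨by rw [Subtype.ext e1], by rw [Subtype.ext e2]⟩)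
      · exact hne (Or.inr ⟨by rw [Subtype.ext e1], by rw [Subtype.ext e2]⟩)
    have k1 := G.edges_meet _ _ _ _ hab hab' hs _ (seg_scale hc h1) (seg_scale hc h2)
    have k2 := G.edges_meet _ _ _ _ hab hab' hs _ (seg_scale hc h3) (seg_scale hc h4)
    have k3 : p / X.c ≠ q / X.c := fun e => hpq ((div_left_inj' X.c_ne).1 e)
    generalize p / X.c = p' at k1 k3
    generalize q / X.c = q' at k2 k3
    apply hs
    rw [Sym2.eq_iff]
    obtain ⟨rfl | rfl, k4 | k4⟩ := k1 <;> obtain ⟨rfl | rfl, k5 | k5⟩ := k2 <;>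
      first
        | exact absurd rfl k3
        | exact absurd (k4.trans k5.symm) k3
        | exact Or.inl ⟨k4, k5⟩
        | exact Or.inr ⟨k4, k5⟩
        | exact Or.inl ⟨k5, k4⟩
        | exact Or.inr ⟨k5, k4⟩
  · have := par hpq h1 h2 h3 h4
    apply X.edge _ r'.2 _ _ hab
    rw [har'] at this
    simp only [cross, Complex.sub_re, Complex.sub_im, Complex.add_re, Complex.add_im,
      Complex.re_ofReal_mul, Complex.im_ofReal_mul, Complex.mul_re, Complex.mul_im,
      Complex.re_ofNat, Complex.im_ofNat, Complex.ofReal_re, Complex.ofReal_im] at this ⊢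
    apply mul_left_cancel₀ (show (9 * X.c) ≠ 0 by positivity)
    linear_combination this
  · have := par hpq h2 h1 h4 h3
    apply X.edge _ r.2 _ _ hab'
    rw [har] at this
    simp only [cross, Complex.sub_re, Complex.sub_im, Complex.add_re, Complex.add_im,
      Complex.re_ofReal_mul, Complex.im_ofReal_mul, Complex.mul_re, Complex.mul_im,
      Complex.re_ofNat, Complex.im_ofNat, Complex.ofReal_re, Complex.ofReal_im] at this ⊢
    apply mul_left_cancel₀ (show (9 * X.c) ≠ 0 by positivity)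
    linear_combination this
  · have := par hpq h2 h1 h4 h3
    apply X.pair _ r.2 _ r'.2
    · intro e
      have e1 : r = r' := Subtype.ext e
      subst e1
      exact hne (Or.inl ⟨by rw [Subtype.ext (har.symm.trans har')], rfl⟩)
    rw [har, har'] at this
    simp only [cross, Complex.sub_re, Complex.sub_im, Complex.add_re, Complex.add_im,
      Complex.re_ofReal_mul, Complex.im_ofReal_mul, Complex.mul_re, Complex.mul_im,
      Complex.re_ofNat, Complex.im_ofNat, Complex.ofReal_re, Complex.ofReal_im] at this ⊢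
    linear_combination this / 81

/-- the drawing -/
def drawing : Drawing X.I where
  pos := X.pos
  W := X.W
  inj := X.pos_inj
  symm := by
    rintro (a | r) (b | r') <;> simp only [W]
    congr 1
    exact propext ⟨G.symm _ _, G.symm _ _⟩
  diag := by
    rintro (a | r) <;> simp only [W]
    rw [if_neg]
    intro h
    exact (G.edge_ends _ _ h).2.2 rfl
  ovl := by
    intro x y z t hxy hzt hne p q h1 h2 h3 h4
    rcases X.canon hxy with c1 | c1 <;> rcases X.canon hzt with c2 | c2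
    · exact X.ovl_canon c1 c2 hne h1 h2 h3 h4
    · rw [segment_symm] at h2 h4
      exact X.ovl_canon c1 c2 (by tauto) h1 h2 h3 h4
    · rw [segment_symm] at h1 h3
      exact X.ovl_canon c1 c2 (by tauto) h1 h2 h3 h4
    · rw [segment_symm] at h1 h2 h3 h4
      exact X.ovl_canon c1 c2 (by tauto) h1 h2 h3 h4

theorem imb_inl (a : {v // v ∈ G.V}) :
    ∑ y, (X.W (Sum.inl a) y : ℂ) * uv (X.pos (Sum.inl a)) (X.pos y) = 0 := by
  rw [Fintype.sum_sum_type, ← X.bal a.1 a.2]
  congr 1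
  · rw [PlaneGraph.Imb_eq, PlaneGraph.neighbors, sum_filter,
      ← sum_coe_sort G.V (fun b => if G.Adj a.1 b then uv a.1 b else 0)]
    refine sum_congr rfl fun b _ => ?_
    simp only [W, pos, uv_scale X.hc]
    split_ifs <;> simp
  · rw [sum_filter, ← sum_coe_sort X.R (fun r => if r.1 = a.1 then r.2 else 0)]
    refine sum_congr rfl fun r _ => ?_
    simp only [W, pos]
    split_ifs with h
    · rw [h, uv_ray _ _ (X.unit _ r.2)]
      simp
    · simp

theorem imb_inr (r : {r // r ∈ X.R}) :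
    ‖∑ y, (X.W (Sum.inr r) y : ℂ) * uv (X.pos (Sum.inr r)) (X.pos y)‖ ≤ 1 := by
  rw [Fintype.sum_sum_type, sum_eq_single ⟨r.1.1, X.mem _ r.2⟩]
  · simp only [W, pos, if_true, Nat.cast_one, one_mul, Nat.cast_zero, zero_mul, sum_const_zero,
      add_zero]
    rw [uv_neg, uv_ray _ _ (X.unit _ r.2), norm_neg, X.unit _ r.2]
  · intro b _ hb
    simp only [W]
    rw [if_neg]
    · simp
    · intro h
      exact hb (Subtype.ext h.symm)
  · simp

theorem deg_inl (a : {v // v ∈ G.V}) :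
    (G.neighbors a.1).card ≤ (univ.filter fun y => X.W (Sum.inl a) y ≠ 0).card := by
  rw [← card_attach]
  refine card_le_card_of_injOn
    (fun w => (Sum.inl ⟨w.1, (mem_filter.1 w.2).1⟩ : X.I)) ?_ ?_
  · intro w _
    simp only [coe_filter, mem_univ, true_and, Set.mem_ofPred_eq, W]
    rw [if_pos (mem_filter.1 w.2).2]
    exact one_ne_zero
  · intro w _ w' _ e1
    have := Sum.inl.inj e1
    exact Subtype.ext (congrArg (fun z : {v // v ∈ G.V} => z.1) this)

end Ext

theorem main : ∃ F : ℕ → ℝ → ℕ, ∀ (n : ℕ) (I : ℝ) (G : PlaneGraph), G.IsGeodesicNet →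
    G.unbalanced.card = n → G.totalImbalance ≤ I → G.balanced.card ≤ F n I := by
  choose B hB using local_bound
  refine ⟨fun n I => B (10 * (4 * I + 4 * n)), fun n I G hG hn hI => ?_⟩
  obtain ⟨X, hX⟩ := exists_ext G
  let D := X.drawing
  have hW : ∀ x y, D.W x y ≤ 1 := by
    rintro (i | x) (j | y) <;> simp only [D, Ext.drawing, Ext.W] <;> (try split_ifs) <;> norm_num
  have hm : ∀ a b, D.m a b ≠ 0 → D.m a b = 1 := by
    intro a b h
    have := D.m_le hW a b
    omega
  let H : PlaneGraph :=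
    { V := D.V
      Adj := fun a b => D.m a b ≠ 0
      symm := fun a b h => by rw [D.m_symm]; exact h
      edge_ends := fun a b h => D.edge_mem h
      edges_meet := by
        intro a b c d hab hcd hne z hz hz'
        refine D.planar hab hcd ?_ hz hz'
        rintro (⟨h1, h2⟩ | ⟨h1, h2⟩)
        · exact hne (by rw [h1, h2])
        · exact hne (by rw [h1, h2]; exact Sym2.eq_swap) }
  have himb : ∀ v, H.Imb v = ∑ w ∈ D.V, (D.m v w : ℂ) * uv v w := by
    intro v
    unfold PlaneGraph.Imb PlaneGraph.neighbors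
    rw [Finset.sum_filter]
    refine Finset.sum_congr rfl fun w _ => ?_
    by_cases h : D.m v w ≠ 0
    · rw [if_pos (show H.Adj v w from h), hm v w h]; simp [uv]
    · rw [if_neg (show ¬ H.Adj v w from h)]
      push Not at h
      rw [h]; simp
  have hdeg : ∀ v, (H.neighbors v).card = (D.V.filter (fun w => D.m v w ≠ 0)).card := by
    intro v
    refine congrArg Finset.card ?_
    ext w
    simp only [PlaneGraph.neighbors, Finset.mem_filter]
    exact Iff.rfl
  have hzero : ∀ z ∈ H.V, (∀ r, z ≠ X.pos (Sum.inr r)) → H.Imb z = 0 := by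
    intro z hz hr
    rw [himb]
    by_cases hvr : z ∈ Set.range D.pos
    · obtain ⟨a | r, rfl⟩ := hvr
      · rw [D.imb_pos]
        exact X.imb_inl a
      · exact absurd rfl (hr r)
    · exact D.imb_cross hz hvr
  have hbal : ∀ z ∈ H.V, ‖z‖ < 8 → H.Imb z = 0 := by
    intro z hz h8
    refine hzero z hz ?_
    rintro r rfl
    linarith [(X.far r).1]
  have hΛ : ∑ v ∈ H.V, ‖v‖ * ‖H.Imb v‖ ≤ 10 * (4 * I + 4 * n) := by
    have e1 : ∑ v ∈ H.V, ‖v‖ * ‖H.Imb v‖ =
        ∑ v ∈ univ.image (fun r => X.pos (Sum.inr r)), ‖v‖ * ‖H.Imb v‖ := by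
      symm
      apply sum_subset
      · intro v hv
        obtain ⟨r, -, rfl⟩ := mem_image.1 hv
        exact D.pos_mem (Sum.inr r)
      · intro v hv hv'
        rw [hzero v hv (fun r e => hv' (mem_image.2 ⟨r, mem_univ _, e.symm⟩))]
        simp
    have e2 : ∀ v ∈ univ.image (fun r => X.pos (Sum.inr r)), ‖v‖ * ‖H.Imb v‖ ≤ 10 := by
      intro v hv
      obtain ⟨r, -, rfl⟩ := mem_image.1 hv
      have a1 := (X.far r).2
      have a2 : ‖H.Imb (X.pos (Sum.inr r))‖ ≤ 1 := by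
        rw [himb]
        exact (congrArg norm (D.imb_pos (Sum.inr r))).le.trans (X.imb_inr r)
      nlinarith [norm_nonneg (H.Imb (X.pos (Sum.inr r))), norm_nonneg (X.pos (Sum.inr r))]
    have e3 := sum_le_card_nsmul _ _ _ e2
    have e4 : ((univ.image (fun r => X.pos (Sum.inr r))).card : ℝ) ≤ X.R.card := by
      have := card_image_le (s := (univ : Finset {r // r ∈ X.R})) (f := fun r => X.pos (Sum.inr r))
      rw [card_univ, Fintype.card_coe] at this
      exact_mod_cast this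
    rw [nsmul_eq_mul] at e3
    rw [hn] at hX
    rw [e1]
    linarith
  refine le_trans ?_ (hB _ H hbal hΛ)
  refine card_le_card_of_injOn (fun v => (X.c : ℂ) * v) ?_ ?_
  · intro v hv
    have hv' := mem_coe.1 hv
    have hV := (mem_filter.1 hv').1
    refine mem_coe.2 (mem_filter.2 ⟨D.pos_mem (Sum.inl ⟨v, hV⟩), X.small v hV, ?_⟩)
    rw [hdeg]
    exact (hG.2 v hv').trans ((X.deg_inl ⟨v, hV⟩).trans (D.degree_pos (Sum.inl ⟨v, hV⟩)))
  · intro v _ w _ h
    exact mul_left_cancel₀ X.c_ne h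

end Pool.Agent.H144Z.Grom
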